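import Mathlib

/-!
# Word calculus: weights of languages of fair coin words

`true` = up step, `false` = down step.  The weight of a word is `2 ^ (-length)`, the weight of a
language is the sum of the weights of its words.
-/

namespace Pool.Agent.Work.MP_3e01db_pr.WC

open scoped ENNReal

/-- weight of a language -/
noncomputable def wt (L : Set (List Bool)) : ℝ≥0∞ := ∑' w : L, (2⁻¹ : ℝ≥0∞) ^ (w : List Bool).length

/-- prefix free languages -/
def PF (L : Set (List Bool)) : Prop := ∀ u ∈ L, ∀ v ∈ L, u <+: v → u = v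

/-- dependent concatenation of languages -/
def catD (L : Set (List Bool)) (M : List Bool → Set (List Bool)) : Set (List Bool) :=
  {w | ∃ u ∈ L, ∃ v ∈ M u, w = u ++ v}

/-- concatenation of languages -/
def cat (L M : Set (List Bool)) : Set (List Bool) := {w | ∃ u ∈ L, ∃ v ∈ M, w = u ++ v}

theorem cat_eq_catD (L M : Set (List Bool)) : cat L M = catD L (fun _ => M) := rfl

theorem wt_empty : wt ∅ = 0 := by
  simp [wt]

theorem wt_singleton (w : List Bool) : wt {w} = (2⁻¹ : ℝ≥0∞) ^ w.length := by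
  unfold wt
  rw [tsum_singleton (f := fun w : List Bool => (2⁻¹ : ℝ≥0∞) ^ w.length)]

theorem wt_nil : wt {[]} = 1 := by
  rw [wt_singleton]; simp

theorem wt_mono {L M : Set (List Bool)} (h : L ⊆ M) : wt L ≤ wt M :=
  ENNReal.tsum_mono_subtype (fun w : List Bool => (2⁻¹ : ℝ≥0∞) ^ w.length) h

theorem wt_union_le (L M : Set (List Bool)) : wt (L ∪ M) ≤ wt L + wt M :=
  ENNReal.tsum_union_le (fun w : List Bool => (2⁻¹ : ℝ≥0∞) ^ w.length) L M

theorem wt_iUnion_le {ι : Type*} (L : ι → Set (List Bool)) : wt (⋃ i, L i) ≤ ∑' i, wt (L i) :=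
  ENNReal.tsum_iUnion_le_tsum (fun w : List Bool => (2⁻¹ : ℝ≥0∞) ^ w.length) L

theorem wt_biUnion_finset_le {ι : Type*} (s : Finset ι) (L : ι → Set (List Bool)) :
    wt (⋃ i ∈ s, L i) ≤ ∑ i ∈ s, wt (L i) :=
  ENNReal.tsum_biUnion_le (fun w : List Bool => (2⁻¹ : ℝ≥0∞) ^ w.length) s L

theorem wt_union_disjoint {L M : Set (List Bool)} (h : Disjoint L M) :
    wt (L ∪ M) = wt L + wt M := by
  unfold wt
  exact Summable.tsum_union_disjoint (f := fun w : List Bool => (2⁻¹ : ℝ≥0∞) ^ w.length) h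
    ENNReal.summable ENNReal.summable

/-- weight of the image under an injective length preserving-up-to-shift map -/
theorem wt_image_of_injOn {L : Set (List Bool)} (f : List Bool → List Bool) (c : ℕ)
    (hf : Set.InjOn f L) (hl : ∀ w ∈ L, (f w).length = c + w.length) :
    wt (f '' L) = (2⁻¹ : ℝ≥0∞) ^ c * wt L := by
  unfold wt
  rw [tsum_image (fun w : List Bool => (2⁻¹ : ℝ≥0∞) ^ w.length) hf, ← ENNReal.tsum_mul_left]
  exact tsum_congr fun w => by rw [hl w.1 w.2, pow_add]

/-- first step decomposition -/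
theorem wt_step (L : Set (List Bool)) (h : [] ∉ L) :
    wt L = 2⁻¹ * wt {w | true :: w ∈ L} + 2⁻¹ * wt {w | false :: w ∈ L} := by
  have h1 : L = (List.cons true) '' {w | true :: w ∈ L} ∪ (List.cons false) '' {w | false :: w ∈ L} := by
    ext w
    constructor
    · intro hw
      cases w with
      | nil => exact absurd hw h
      | cons b w =>
        cases b with
        | true => exact Or.inl ⟨w, hw, rfl⟩
        | false => exact Or.inr ⟨w, hw, rfl⟩
    · rintro (⟨v, hv, rfl⟩ | ⟨v, hv, rfl⟩)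
      · exact hv
      · exact hv
  have hd : Disjoint ((List.cons true) '' {w | true :: w ∈ L})
      ((List.cons false) '' {w | false :: w ∈ L}) := by
    rw [Set.disjoint_left]
    rintro w ⟨v, hv, rfl⟩ ⟨v', hv', h2⟩
    simp at h2
  conv_lhs => rw [h1]
  rw [wt_union_disjoint hd,
    wt_image_of_injOn (List.cons true) 1 (fun a _ b _ h => by simpa using h)
      (fun w _ => by simp [add_comm]),
    wt_image_of_injOn (List.cons false) 1 (fun a _ b _ h => by simpa using h)
      (fun w _ => by simp [add_comm]), pow_one]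

theorem PF.mono {L M : Set (List Bool)} (h : PF M) (hs : L ⊆ M) : PF L :=
  fun u hu v hv huv => h u (hs hu) v (hs hv) huv

theorem PF.eq_singleton {L : Set (List Bool)} (h : PF L) (h0 : [] ∈ L) : L = {[]} := by
  ext w
  constructor
  · intro hw
    exact (h [] h0 w hw List.nil_prefix).symm
  · rintro rfl
    exact h0

theorem PF.cons {L : Set (List Bool)} (h : PF L) (b : Bool) : PF {w | b :: w ∈ L} := by
  intro u hu v hv huv
  have := h _ hu _ hv (by simpa using huv)
  simpa using this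

theorem kraft_aux (n : ℕ) : ∀ L : Set (List Bool), PF L → (∀ w ∈ L, w.length ≤ n) → wt L ≤ 1 := by
  induction n with
  | zero =>
    intro L _ hn
    have h1 : L ⊆ {[]} := by
      intro w hw
      have := hn w hw
      simpa using this
    exact (wt_mono h1).trans wt_nil.le
  | succ n ih =>
    intro L hL hn
    by_cases h0 : [] ∈ L
    · rw [hL.eq_singleton h0, wt_nil]
    · rw [wt_step L h0]
      have h1 : wt {w | true :: w ∈ L} ≤ 1 := ih _ (hL.cons true) (fun w hw => by
        have := hn _ hw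
        simp at this
        exact this)
      have h2 : wt {w | false :: w ∈ L} ≤ 1 := ih _ (hL.cons false) (fun w hw => by
        have := hn _ hw
        simp at this
        exact this)
      calc 2⁻¹ * wt {w | true :: w ∈ L} + 2⁻¹ * wt {w | false :: w ∈ L}
          ≤ 2⁻¹ * 1 + 2⁻¹ * 1 := by gcongr
        _ = 1 := by rw [mul_one]; exact ENNReal.inv_two_add_inv_two

/-- Kraft's inequality -/
theorem kraft {L : Set (List Bool)} (h : PF L) : wt L ≤ 1 := by
  unfold wt
  rw [ENNReal.tsum_eq_iSup_sum]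
  refine iSup_le fun s => ?_
  obtain ⟨n, hn⟩ : ∃ n, ∀ w ∈ s, (w : List Bool).length ≤ n := by
    refine ⟨s.sup (fun w => (w : List Bool).length), fun w hw => ?_⟩
    exact Finset.le_sup (f := fun w : L => (w : List Bool).length) hw
  have h1 : ∑ w ∈ s, (2⁻¹ : ℝ≥0∞) ^ (w : List Bool).length ≤ wt (L ∩ {w | w.length ≤ n}) := by
    unfold wt
    have h2 : ∀ w : s, (w.1 : List Bool) ∈ L ∩ {w | w.length ≤ n} := fun w => ⟨w.1.2, hn w.1 w.2⟩
    have h3 := ENNReal.tsum_comp_le_tsum_of_injective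
      (f := fun w : s => (⟨w.1.1, h2 w⟩ : (L ∩ {w | w.length ≤ n} : Set (List Bool))))
      (fun a b hab => by
        have := congrArg (fun x : (L ∩ {w | w.length ≤ n} : Set (List Bool)) => x.1) hab
        exact Subtype.ext (Subtype.ext this))
      (fun w => (2⁻¹ : ℝ≥0∞) ^ (w : List Bool).length)
    rw [tsum_fintype] at h3
    refine le_trans (le_of_eq ?_) h3
    rw [← Finset.sum_coe_sort]
  exact h1.trans (kraft_aux n _ (h.mono Set.inter_subset_left) (fun w hw => hw.2))

/-! ### Concatenation -/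

theorem wt_catD (L : Set (List Bool)) (hL : PF L) (M : List Bool → Set (List Bool)) :
    wt (catD L M) = ∑' u : L, (2⁻¹ : ℝ≥0∞) ^ (u : List Bool).length * wt (M u) := by
  have h1 : ∀ u : L, (2⁻¹ : ℝ≥0∞) ^ (u : List Bool).length * wt (M u) =
      ∑' v : M u, (2⁻¹ : ℝ≥0∞) ^ ((u : List Bool) ++ (v : List Bool)).length := by
    intro u
    unfold wt
    rw [← ENNReal.tsum_mul_left]
    exact tsum_congr fun v => by rw [List.length_append, pow_add]
  rw [tsum_congr h1, ← ENNReal.tsum_sigma'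
    (fun p : (Σ u : L, M (u : List Bool)) => (2⁻¹ : ℝ≥0∞) ^ ((p.1 : List Bool) ++ (p.2 : List Bool)).length)]
  unfold wt
  symm
  let e : (Σ u : L, M u) → (catD L M : Set (List Bool)) :=
    fun p => ⟨p.1.1 ++ p.2.1, ⟨p.1.1, p.1.2, p.2.1, p.2.2, rfl⟩⟩
  have he : Function.Bijective e := by
    constructor
    · rintro ⟨⟨u, hu⟩, ⟨v, hv⟩⟩ ⟨⟨u', hu'⟩, ⟨v', hv'⟩⟩ h
      have h2 : u ++ v = u' ++ v' := congrArg (fun x : (catD L M : Set (List Bool)) => x.1) h
      have h3 : u = u' := by
        rcases List.prefix_or_prefix_of_prefix (l₁ := u) (l₂ := u') (l₃ := u ++ v)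
          (List.prefix_append u v) (h2 ▸ List.prefix_append u' v') with h4 | h4
        · exact hL u hu u' hu' h4
        · exact (hL u' hu' u hu h4).symm
      subst h3
      have h5 : v = v' := List.append_cancel_left h2
      subst h5
      rfl
    · rintro ⟨w, u, hu, v, hv, rfl⟩
      exact ⟨⟨⟨u, hu⟩, ⟨v, hv⟩⟩, rfl⟩
  exact (Equiv.ofBijective e he).tsum_eq
    (fun w : (catD L M : Set (List Bool)) => (2⁻¹ : ℝ≥0∞) ^ (w : List Bool).length)

theorem wt_catD_le_tsum (L : Set (List Bool)) (M : List Bool → Set (List Bool)) :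
    wt (catD L M) ≤ ∑' u : L, (2⁻¹ : ℝ≥0∞) ^ (u : List Bool).length * wt (M u) := by
  have h1 : ∀ u : L, (2⁻¹ : ℝ≥0∞) ^ (u : List Bool).length * wt (M u) =
      ∑' v : M u, (2⁻¹ : ℝ≥0∞) ^ ((u : List Bool) ++ (v : List Bool)).length := by
    intro u
    unfold wt
    rw [← ENNReal.tsum_mul_left]
    exact tsum_congr fun v => by rw [List.length_append, pow_add]
  rw [tsum_congr h1, ← ENNReal.tsum_sigma'
    (fun p : (Σ u : L, M (u : List Bool)) => (2⁻¹ : ℝ≥0∞) ^ ((p.1 : List Bool) ++ (p.2 : List Bool)).length)]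
  unfold wt
  -- choose for each word of the concatenation a decomposition
  choose u hu v hv huv using fun w : (catD L M : Set (List Bool)) => w.2
  have h3 := ENNReal.tsum_comp_le_tsum_of_injective
    (f := fun w : (catD L M : Set (List Bool)) => (⟨⟨u w, hu w⟩, ⟨v w, hv w⟩⟩ : Σ u : L, M u))
    (fun a b hab => by
      apply Subtype.ext
      have h4 := congrArg (fun p : (Σ u : L, M u) => p.1.1 ++ p.2.1) hab
      simp only at h4
      rw [huv a, huv b]
      exact h4)
    (fun p => (2⁻¹ : ℝ≥0∞) ^ ((p.1 : List Bool) ++ (p.2 : List Bool)).length)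
  refine le_trans (le_of_eq ?_) h3
  exact tsum_congr fun w => by rw [← huv w]

theorem wt_catD_le (L : Set (List Bool)) (M : List Bool → Set (List Bool)) (c : ℝ≥0∞)
    (hc : ∀ u ∈ L, wt (M u) ≤ c) : wt (catD L M) ≤ wt L * c := by
  refine (wt_catD_le_tsum L M).trans ?_
  unfold wt
  rw [← ENNReal.tsum_mul_right]
  exact ENNReal.tsum_le_tsum fun u => by
    gcongr
    exact hc u.1 u.2

theorem le_wt_catD (L : Set (List Bool)) (hL : PF L) (M : List Bool → Set (List Bool)) (c : ℝ≥0∞)
    (hc : ∀ u ∈ L, c ≤ wt (M u)) : wt L * c ≤ wt (catD L M) := by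
  rw [wt_catD L hL M]
  unfold wt
  rw [← ENNReal.tsum_mul_right]
  exact ENNReal.tsum_le_tsum fun u => by
    gcongr
    exact hc u.1 u.2

theorem wt_cat_le (L M : Set (List Bool)) : wt (cat L M) ≤ wt L * wt M :=
  wt_catD_le L (fun _ => M) (wt M) (fun _ _ => le_rfl)

theorem wt_cat (L M : Set (List Bool)) (hL : PF L) : wt (cat L M) = wt L * wt M :=
  le_antisymm (wt_cat_le L M) (le_wt_catD L hL (fun _ => M) (wt M) (fun _ _ => le_rfl))

theorem PF.catD {L : Set (List Bool)} (hL : PF L) {M : List Bool → Set (List Bool)}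
    (hM : ∀ u ∈ L, PF (M u)) : PF (catD L M) := by
  rintro _ ⟨u, hu, v, hv, rfl⟩ _ ⟨u', hu', v', hv', rfl⟩ h
  have h3 : u = u' := by
    rcases List.prefix_or_prefix_of_prefix (l₁ := u) (l₂ := u') (l₃ := u' ++ v')
      ((List.prefix_append u v).trans h) (List.prefix_append u' v') with h4 | h4
    · exact hL u hu u' hu' h4
    · exact (hL u' hu' u hu h4).symm
  subst h3
  have h4 : v <+: v' := (List.prefix_append_right_inj u).1 h
  rw [hM u hu v hv v' hv' h4]

theorem PF.cat {L M : Set (List Bool)} (hL : PF L) (hM : PF M) : PF (WC.cat L M) :=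
  PF.catD hL (fun _ _ => hM)

theorem cat_mono {L L' M M' : Set (List Bool)} (h : L ⊆ L') (h' : M ⊆ M') :
    cat L M ⊆ cat L' M' := by
  rintro _ ⟨u, hu, v, hv, rfl⟩
  exact ⟨u, h hu, v, h' hv, rfl⟩

theorem cat_assoc (L M N : Set (List Bool)) : cat (cat L M) N = cat L (cat M N) := by
  ext w
  constructor
  · rintro ⟨_, ⟨u, hu, v, hv, rfl⟩, x, hx, rfl⟩
    exact ⟨u, hu, v ++ x, ⟨v, hv, x, hx, rfl⟩, List.append_assoc _ _ _⟩
  · rintro ⟨u, hu, _, ⟨v, hv, x, hx, rfl⟩, rfl⟩
    exact ⟨u ++ v, ⟨u, hu, v, hv, rfl⟩, x, hx, (List.append_assoc _ _ _).symm⟩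

/-- if `W` and `V` are incomparable prefix free languages then `wt W + wt V ≤ 1` -/
theorem wt_add_wt_le_one {W V : Set (List Bool)} (hW : PF W) (hV : PF V)
    (h1 : ∀ w ∈ W, ∀ v ∈ V, ¬ w <+: v) (h2 : ∀ w ∈ W, ∀ v ∈ V, ¬ v <+: w) :
    wt W + wt V ≤ 1 := by
  have hd : Disjoint W V := by
    rw [Set.disjoint_left]
    intro w hw hv
    exact h1 w hw w hv (List.prefix_refl w)
  rw [← wt_union_disjoint hd]
  apply kraft
  rintro u (hu | hu) v (hv | hv) huv
  · exact hW u hu v hv huv
  · exact absurd huv (h1 u hu v hv)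
  · exact absurd huv (h2 v hv u hu)
  · exact hV u hu v hv huv

/-! ### The walk -/

/-- the end point of the walk -/
def ht (w : List Bool) : ℤ := (w.map (fun b => if b then (1 : ℤ) else -1)).sum

@[simp] theorem ht_nil : ht [] = 0 := rfl

@[simp] theorem ht_cons_true (w : List Bool) : ht (true :: w) = 1 + ht w := by
  simp [ht]

@[simp] theorem ht_cons_false (w : List Bool) : ht (false :: w) = -1 + ht w := by
  simp [ht]

@[simp] theorem ht_append (u v : List Bool) : ht (u ++ v) = ht u + ht v := by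
  simp [ht]

/-- words which first leave `(-b, a)` at `a` -/
def Up (a b : ℤ) : Set (List Bool) :=
  {w | ht w = a ∧ ∀ u, u <+: w → u ≠ w → -b < ht u ∧ ht u < a}

/-- words which first leave `(-b, a)` at `-b` -/
def Dn (a b : ℤ) : Set (List Bool) :=
  {w | ht w = -b ∧ ∀ u, u <+: w → u ≠ w → -b < ht u ∧ ht u < a}

/-- first passage to `-b` (no upper barrier) -/
def FP (b : ℤ) : Set (List Bool) :=
  {w | ht w = -b ∧ ∀ u, u <+: w → u ≠ w → -b < ht u}

theorem PF_of_stop {L : Set (List Bool)} (Q : List Bool → Prop) (h1 : ∀ w ∈ L, ¬ Q w)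
    (h2 : ∀ w ∈ L, ∀ u, u <+: w → u ≠ w → Q u) : PF L := by
  intro u hu v hv huv
  by_contra hne
  exact h1 u hu (h2 v hv u huv hne)

theorem PF_Up (a b : ℤ) : PF (Up a b) :=
  PF_of_stop (fun u => -b < ht u ∧ ht u < a) (fun w hw => by
    rintro ⟨_, h⟩
    rw [hw.1] at h
    exact lt_irrefl _ h) (fun w hw u h1 h2 => hw.2 u h1 h2)

theorem PF_Dn (a b : ℤ) : PF (Dn a b) :=
  PF_of_stop (fun u => -b < ht u ∧ ht u < a) (fun w hw => by
    rintro ⟨h, _⟩
    rw [hw.1] at h
    exact lt_irrefl _ h) (fun w hw u h1 h2 => hw.2 u h1 h2)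

theorem PF_FP (b : ℤ) : PF (FP b) :=
  PF_of_stop (fun u => -b < ht u) (fun w hw => by
    intro h
    rw [hw.1] at h
    exact lt_irrefl _ h) (fun w hw u h1 h2 => hw.2 u h1 h2)

theorem prefix_cons_iff' {b : Bool} {u w : List Bool} :
    u <+: b :: w ↔ u = [] ∨ ∃ t, u = b :: t ∧ t <+: w := by
  rw [List.prefix_cons_iff]

theorem Up_zero (b : ℤ) : Up 0 b = {[]} := by
  ext w
  constructor
  · intro hw
    by_contra hne
    have := (hw.2 [] List.nil_prefix (fun h => hne (by rw [← h]; rfl))).2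
    simp at this
  · rintro rfl
    refine ⟨by simp, fun u hu hne => ?_⟩
    exact absurd (List.prefix_nil.1 hu) hne

theorem Up_bot (a : ℤ) (ha : a ≠ 0) : Up a 0 = ∅ := by
  ext w
  simp only [Set.mem_empty_iff_false, iff_false]
  intro hw
  have hne : w ≠ [] := by
    rintro rfl
    have := hw.1
    simp at this
    exact ha this.symm
  have := (hw.2 [] List.nil_prefix (Ne.symm hne)).1
  simp at this

theorem nil_notMem_Up (a b : ℤ) (ha : a ≠ 0) : [] ∉ Up a b := fun h => ha (by simpa using h.1.symm)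

theorem Up_cons_true (a b : ℤ) (ha : 0 < a) (hb : 0 < b) :
    {w | true :: w ∈ Up a b} = Up (a - 1) (b + 1) := by
  ext w
  constructor
  · rintro ⟨h1, h2⟩
    refine ⟨by simp at h1; linarith, fun u hu hne => ?_⟩
    have := h2 (true :: u) (by simpa using hu) (by simpa using hne)
    simp at this
    constructor <;> linarith [this.1, this.2]
  · rintro ⟨h1, h2⟩
    refine ⟨by simp [h1], fun u hu hne => ?_⟩
    rcases prefix_cons_iff'.1 hu with rfl | ⟨t, rfl, ht'⟩
    · simp; exact ⟨hb, ha⟩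
    · have := h2 t ht' (by simpa using hne)
      simp
      constructor <;> linarith [this.1, this.2]

theorem Up_cons_false (a b : ℤ) (ha : 0 < a) (hb : 0 < b) :
    {w | false :: w ∈ Up a b} = Up (a + 1) (b - 1) := by
  ext w
  constructor
  · rintro ⟨h1, h2⟩
    refine ⟨by simp at h1; linarith, fun u hu hne => ?_⟩
    have := h2 (false :: u) (by simpa using hu) (by simpa using hne)
    simp at this
    constructor <;> linarith [this.1, this.2]
  · rintro ⟨h1, h2⟩
    refine ⟨by simp [h1], fun u hu hne => ?_⟩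
    rcases prefix_cons_iff'.1 hu with rfl | ⟨t, rfl, ht'⟩
    · simp; exact ⟨hb, ha⟩
    · have := h2 t ht' (by simpa using hne)
      simp
      constructor <;> linarith [this.1, this.2]

theorem wt_Up_le_one (a b : ℤ) : wt (Up a b) ≤ 1 := kraft (PF_Up a b)

theorem wt_Dn_le_one (a b : ℤ) : wt (Dn a b) ≤ 1 := kraft (PF_Dn a b)

theorem wt_FP_le_one (b : ℤ) : wt (FP b) ≤ 1 := kraft (PF_FP b)

/-- gambler's ruin -/
theorem wt_Up (n x : ℕ) (hn : 0 < n) (hx : x ≤ n) :
    wt (Up ((n : ℤ) - x) x) = ENNReal.ofReal (x / n) := by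
  set g : ℕ → ℝ := fun x => (wt (Up ((n : ℤ) - x) x)).toReal with hg
  have hfin : ∀ x : ℕ, wt (Up ((n : ℤ) - x) x) ≠ ⊤ := fun x =>
    ne_top_of_le_ne_top ENNReal.one_ne_top (wt_Up_le_one _ _)
  have h0 : g 0 = 0 := by
    simp only [hg]
    rw [Nat.cast_zero, sub_zero, Up_bot _ (by exact_mod_cast hn.ne'), wt_empty]
    rfl
  have h1 : g n = 1 := by
    simp only [hg]
    rw [sub_self, Up_zero, wt_nil]
    rfl
  have hrec : ∀ x : ℕ, 0 < x → x < n → g x = (g (x + 1) + g (x - 1)) / 2 := by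
    intro x hx0 hxn
    have h2 : wt (Up ((n : ℤ) - x) x) = 2⁻¹ * wt (Up ((n : ℤ) - (x + 1 : ℕ)) (x + 1 : ℕ)) +
        2⁻¹ * wt (Up ((n : ℤ) - (x - 1 : ℕ)) (x - 1 : ℕ)) := by
      rw [wt_step _ (nil_notMem_Up _ _ (by omega)), Up_cons_true _ _ (by omega) (by omega),
        Up_cons_false _ _ (by omega) (by omega)]
      congr 4
      · push_cast; ring
      · omega
      · omega
    simp only [hg]
    rw [h2, ENNReal.toReal_add (ENNReal.mul_ne_top (by simp) (hfin _))
      (ENNReal.mul_ne_top (by simp) (hfin _)), ENNReal.toReal_mul, ENNReal.toReal_mul]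
    simp
    ring
  -- `g` is linear
  have hlin : ∀ x : ℕ, x ≤ n → g x = x * g 1 := by
    intro x
    induction x using Nat.strong_induction_on with
    | _ x ih =>
      intro hxn
      rcases Nat.lt_or_ge x 2 with hx2 | hx2
      · interval_cases x
        · rw [h0]; simp
        · simp
      · have h3 := hrec (x - 1) (by omega) (by omega)
        have h4 := ih (x - 1) (by omega) (by omega)
        have h5 := ih (x - 1 - 1) (by omega) (by omega)
        have h6 : x - 1 + 1 = x := by omega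
        rw [h6, h4, h5] at h3
        have h7 : ((x - 1 : ℕ) : ℝ) = (x : ℝ) - 1 := by
          rw [Nat.cast_sub (by omega)]; simp
        have h8 : ((x - 1 - 1 : ℕ) : ℝ) = (x : ℝ) - 2 := by
          rw [Nat.sub_sub, Nat.cast_sub (by omega)]; norm_num
        rw [h7, h8] at h3
        linarith
  have h9 : g 1 = 1 / n := by
    have := hlin n le_rfl
    rw [h1] at this
    have hn' : (n : ℝ) ≠ 0 := by exact_mod_cast hn.ne'
    field_simp
    linarith
  have h10 : g x = x / n := by
    rw [hlin x hx, h9]; ring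
  rw [← h10, hg, ENNReal.ofReal_toReal (hfin x)]

/-- gambler's ruin, other form -/
theorem wt_Up' (a b : ℕ) (h : 0 < a + b) : wt (Up a b) = ENNReal.ofReal (b / (a + b)) := by
  have := wt_Up (a + b) b h (by omega)
  rw [show (((a + b : ℕ) : ℤ) - (b : ℤ)) = a by push_cast; ring] at this
  rw [this]
  push_cast
  rfl

/-- reflection -/
def neg (w : List Bool) : List Bool := w.map (fun b => !b)

theorem neg_neg' (w : List Bool) : neg (neg w) = w := by
  induction w with
  | nil => rfl
  | cons b w ih =>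
    have h : neg (neg (b :: w)) = (!(!b)) :: neg (neg w) := rfl
    rw [h, ih, Bool.not_not]

theorem ht_neg (w : List Bool) : ht (neg w) = - ht w := by
  induction w with
  | nil => rfl
  | cons b w ih =>
    cases b
    · have : neg (false :: w) = true :: neg w := rfl
      rw [this, ht_cons_true, ht_cons_false, ih]; ring
    · have : neg (true :: w) = false :: neg w := rfl
      rw [this, ht_cons_true, ht_cons_false, ih]; ring

theorem neg_inj {u v : List Bool} (h : neg u = neg v) : u = v := by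
  rw [← neg_neg' u, h, neg_neg']

theorem neg_prefix {u v : List Bool} (h : u <+: v) : neg u <+: neg v := by
  obtain ⟨t, rfl⟩ := h
  exact ⟨neg t, by simp [neg]⟩

theorem Dn_eq_image (a b : ℤ) : Dn a b = neg '' Up b a := by
  ext w
  constructor
  · rintro ⟨h1, h2⟩
    refine ⟨neg w, ⟨by rw [ht_neg, h1]; ring, fun u hu hne => ?_⟩, neg_neg' w⟩
    have := h2 (neg u) (by simpa [neg_neg'] using neg_prefix hu)
      (fun h => hne (by rw [← h, neg_neg']))
    rw [ht_neg] at this
    constructor <;> linarith [this.1, this.2]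
  · rintro ⟨v, ⟨h1, h2⟩, rfl⟩
    refine ⟨by rw [ht_neg, h1], fun u hu hne => ?_⟩
    have := h2 (neg u) (by simpa [neg_neg'] using neg_prefix hu)
      (fun h => hne (by rw [← h, neg_neg']))
    rw [ht_neg] at this
    constructor <;> linarith [this.1, this.2]

theorem wt_Dn_eq (a b : ℤ) : wt (Dn a b) = wt (Up b a) := by
  rw [Dn_eq_image, wt_image_of_injOn neg 0 (fun u _ v _ h => neg_inj h)
    (fun w _ => by simp [neg])]
  simp

theorem wt_Dn' (a b : ℕ) (h : 0 < a + b) : wt (Dn a b) = ENNReal.ofReal (a / (a + b)) := by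
  rw [wt_Dn_eq, wt_Up' b a (by omega), add_comm (b : ℝ)]

end Pool.Agent.Work.MP_3e01db_pr.WC
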