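import Pool.Agent.Work.MP_3e01db_pr.WC.Basic

/-!
# Word calculus: powers, exits by concatenation, averaging, rises
-/

namespace Pool.Agent.Work.MP_3e01db_pr.WC

open scoped ENNReal

theorem PF_nil : PF {[]} := by
  rintro u rfl v rfl _
  rfl

theorem cat_nil_left (L : Set (List Bool)) : cat {[]} L = L := by
  ext w
  constructor
  · rintro ⟨u, rfl, v, hv, rfl⟩
    simpa using hv
  · intro hw
    exact ⟨[], rfl, w, hw, by simp⟩

theorem cat_nil_right (L : Set (List Bool)) : cat L {[]} = L := by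
  ext w
  constructor
  · rintro ⟨u, hu, v, rfl, rfl⟩
    simpa using hu
  · intro hw
    exact ⟨w, hw, [], rfl, by simp⟩

/-- `n`-fold concatenation -/
def pw (L : Set (List Bool)) : ℕ → Set (List Bool)
  | 0 => {[]}
  | n + 1 => cat L (pw L n)

theorem PF_pw {L : Set (List Bool)} (hL : PF L) (n : ℕ) : PF (pw L n) := by
  induction n with
  | zero => exact PF_nil
  | succ n ih => exact hL.cat ih

theorem wt_pw {L : Set (List Bool)} (hL : PF L) (n : ℕ) : wt (pw L n) = wt L ^ n := by
  induction n with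
  | zero => rw [pow_zero]; exact wt_nil
  | succ n ih =>
    have : wt (pw L (n + 1)) = wt (cat L (pw L n)) := rfl
    rw [this, wt_cat _ _ hL, ih, pow_succ, mul_comm]

theorem wt_pw_le (L : Set (List Bool)) (n : ℕ) : wt (pw L n) ≤ wt L ^ n := by
  induction n with
  | zero => rw [pow_zero]; exact wt_nil.le
  | succ n ih =>
    have : wt (pw L (n + 1)) = wt (cat L (pw L n)) := rfl
    rw [this, pow_succ, mul_comm]
    refine (wt_cat_le _ _).trans ?_
    gcongr

theorem mem_pw {L : Set (List Bool)} {n : ℕ} {w : List Bool} :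
    w ∈ pw L n ↔ ∃ l : List (List Bool), l.length = n ∧ (∀ u ∈ l, u ∈ L) ∧ w = l.flatten := by
  induction n generalizing w with
  | zero =>
    constructor
    · intro h
      exact ⟨[], rfl, by simp, by simpa [pw] using h⟩
    · rintro ⟨l, hl, _, rfl⟩
      rw [List.length_eq_zero_iff] at hl
      subst hl
      simp [pw]
  | succ n ih =>
    constructor
    · rintro ⟨u, hu, v, hv, rfl⟩
      obtain ⟨l, hl, hl2, rfl⟩ := ih.1 hv
      refine ⟨u :: l, by simp [hl], ?_, by simp⟩
      intro x hx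
      rcases List.mem_cons.1 hx with rfl | hx
      · exact hu
      · exact hl2 x hx
    · rintro ⟨l, hl, hl2, rfl⟩
      cases l with
      | nil => simp at hl
      | cons u l =>
        refine ⟨u, hl2 u (by simp), l.flatten, ih.2 ⟨l, by simpa using hl, fun x hx => hl2 x (by simp [hx]), rfl⟩, by simp⟩

/-! ### Confinement and exits -/

/-- all prefixes (including the word itself) stay in `(-b, a)` -/
def InR (a b : ℤ) : Set (List Bool) := {w | ∀ u, u <+: w → -b < ht u ∧ ht u < a}

theorem prefix_append_iff' {u v w : List Bool} :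
    u <+: v ++ w ↔ (u <+: v ∧ u ≠ v) ∨ ∃ t, t <+: w ∧ u = v ++ t := by
  constructor
  · intro h
    rcases List.prefix_or_prefix_of_prefix h (List.prefix_append v w) with h1 | h1
    · by_cases h2 : u = v
      · exact Or.inr ⟨[], List.nil_prefix, by simp [h2]⟩
      · exact Or.inl ⟨h1, h2⟩
    · obtain ⟨t, rfl⟩ := h1
      exact Or.inr ⟨t, (List.prefix_append_right_inj v).1 h, rfl⟩
  · rintro (⟨h, _⟩ | ⟨t, ht', rfl⟩)
    · exact h.trans (List.prefix_append v w)
    · exact (List.prefix_append_right_inj v).2 ht'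

theorem InR_of_Up {a b : ℤ} {w : List Bool} {A B : ℤ} (h : w ∈ Up a b) (hA : a < A) (hB : b ≤ B)
    (hB' : -B < a) : w ∈ InR A B := by
  intro u hu
  by_cases hne : u = w
  · subst hne
    rw [h.1]
    exact ⟨hB', hA⟩
  · have := h.2 u hu hne
    constructor <;> linarith [this.1, this.2]

theorem InR_of_Dn {a b : ℤ} {w : List Bool} {A B : ℤ} (h : w ∈ Dn a b) (hA : a ≤ A) (hB : b < B)
    (hA' : -b < A) : w ∈ InR A B := by
  intro u hu
  by_cases hne : u = w
  · subst hne
    rw [h.1]
    constructor <;> linarith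
  · have := h.2 u hu hne
    constructor <;> linarith [this.1, this.2]

theorem InR.append {a b : ℤ} {u v : List Bool} (hu : u ∈ InR a b)
    (hv : v ∈ InR (a - ht u) (b + ht u)) : u ++ v ∈ InR a b := by
  intro t ht'
  rcases prefix_append_iff'.1 ht' with ⟨h1, _⟩ | ⟨s, hs, rfl⟩
  · exact hu t h1
  · have := hv s hs
    rw [ht_append]
    constructor <;> linarith [this.1, this.2]

theorem InR_append_Up {a b : ℤ} {u v : List Bool} (hu : u ∈ InR a b)
    (hv : v ∈ Up (a - ht u) (b + ht u)) : u ++ v ∈ Up a b := by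
  refine ⟨by rw [ht_append, hv.1]; ring, fun t ht' hne => ?_⟩
  rcases prefix_append_iff'.1 ht' with ⟨h1, _⟩ | ⟨s, hs, rfl⟩
  · exact hu t h1
  · have := hv.2 s hs (fun h => hne (by rw [h]))
    rw [ht_append]
    constructor <;> linarith [this.1, this.2]

theorem InR_append_Dn {a b : ℤ} {u v : List Bool} (hu : u ∈ InR a b)
    (hv : v ∈ Dn (a - ht u) (b + ht u)) : u ++ v ∈ Dn a b := by
  refine ⟨by rw [ht_append, hv.1]; ring, fun t ht' hne => ?_⟩
  rcases prefix_append_iff'.1 ht' with ⟨h1, _⟩ | ⟨s, hs, rfl⟩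
  · exact hu t h1
  · have := hv.2 s hs (fun h => hne (by rw [h]))
    rw [ht_append]
    constructor <;> linarith [this.1, this.2]

/-- a word which goes from `0` through `a1` staying in `(-b, a)`: exit at the top -/
theorem Up_append {a b a1 b1 : ℤ} {u v : List Bool} (hu : u ∈ Up a1 b1) (hv : v ∈ Up (a - a1) (b + a1))
    (ha : a1 ≤ a) (hb : b1 ≤ b) : u ++ v ∈ Up a b := by
  refine ⟨by rw [ht_append, hv.1, hu.1]; ring, fun t ht' hne => ?_⟩
  rcases prefix_append_iff'.1 ht' with ⟨h1, h2⟩ | ⟨s, hs, rfl⟩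
  · have := hu.2 t h1 h2
    constructor <;> linarith [this.1, this.2]
  · have := hv.2 s hs (fun h => hne (by rw [h]))
    rw [ht_append, hu.1]
    constructor <;> linarith [this.1, this.2]

/-! ### Averaging over labels -/

theorem wt_eq_tsum_indicator (L : Set (List Bool)) :
    wt L = ∑' w : List Bool, L.indicator (fun w => (2⁻¹ : ℝ≥0∞) ^ w.length) w := by
  unfold wt
  rw [tsum_subtype L (fun w : List Bool => (2⁻¹ : ℝ≥0∞) ^ w.length)]

open Classical in
theorem averaging {ι : Type*} (P : Set (List Bool)) (Q : ι → Set (List Bool)) (s : Finset ι)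
    (hsub : ∀ j ∈ s, Q j ⊆ P) (θ : ℕ) :
    ∑ j ∈ s, wt (Q j) ≤
      s.card * wt {w | w ∈ P ∧ θ ≤ (s.filter (fun j => w ∈ Q j)).card} + θ * wt P := by
  simp only [wt_eq_tsum_indicator]
  rw [← ENNReal.tsum_mul_left, ← ENNReal.tsum_mul_left, ← ENNReal.tsum_add,
    ← Summable.tsum_finsetSum (fun _ _ => ENNReal.summable)]
  refine ENNReal.tsum_le_tsum fun w => ?_
  have h1 : ∑ j ∈ s, (Q j).indicator (fun w => (2⁻¹ : ℝ≥0∞) ^ w.length) w =
      ((s.filter (fun j => w ∈ Q j)).card : ℝ≥0∞) * (2⁻¹ : ℝ≥0∞) ^ w.length := by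
    simp only [Set.indicator_apply]
    rw [← Finset.sum_filter, Finset.sum_const, nsmul_eq_mul]
  rw [h1]
  by_cases hP : w ∈ P
  · by_cases hθ : θ ≤ (s.filter (fun j => w ∈ Q j)).card
    · have h2 : w ∈ {w | w ∈ P ∧ θ ≤ (s.filter (fun j => w ∈ Q j)).card} := ⟨hP, hθ⟩
      rw [Set.indicator_of_mem h2]
      refine le_trans ?_ le_self_add
      gcongr
      exact Finset.filter_subset _ _
    · rw [Set.indicator_of_mem hP]
      refine le_trans ?_ le_add_self
      gcongr
      exact (not_le.1 hθ).le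
  · have h2 : (s.filter (fun j => w ∈ Q j)) = ∅ := by
      rw [Finset.filter_eq_empty_iff]
      intro j hj hw
      exact hP (hsub j hj hw)
    rw [h2]
    simp

/-! ### First passages without large rises -/

/-- first passage to `-A` such that no rise above the running minimum exceeds `H` -/
def LW (A H : ℤ) : Set (List Bool) :=
  {w | w ∈ FP A ∧ ∀ u, u <+: w → ∀ t, t <+: u → ht u - ht t ≤ H}

theorem PF_LW (A H : ℤ) : PF (LW A H) := (PF_FP A).mono (fun _ h => h.1)

/-- words which reach `-C` before `X`, then rise by `H + 1` before falling by `A - C` -/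
theorem wt_LW_le (A C X H : ℤ) (hA : C < A) (hH : 0 ≤ H) :
    wt (LW A H) + wt (Dn X C) * wt (Up (H + 1) (A - C)) ≤ 1 := by
  rw [← wt_cat _ _ (PF_Dn X C)]
  apply wt_add_wt_le_one (PF_LW A H) ((PF_Dn X C).cat (PF_Up _ _))
  · rintro w hw _ ⟨u, hu, v, hv, rfl⟩ h
    -- `w` is a prefix of `u ++ v`, but `w` ends at `-A`
    have h1 : ht w = -A := hw.1.1
    rcases prefix_append_iff'.1 h with ⟨h2, h3⟩ | ⟨s, hs, rfl⟩
    · have := (hu.2 w h2 h3).1
      omega
    · rw [ht_append, hu.1] at h1
      by_cases h4 : s = v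
      · subst h4
        rw [hv.1] at h1
        omega
      · have := (hv.2 s hs h4).1
        omega
  · rintro w hw _ ⟨u, hu, v, hv, rfl⟩ h
    have := hw.2 (u ++ v) h u (List.prefix_append u v)
    rw [ht_append, hu.1, hv.1] at this
    omega

end Pool.Agent.Work.MP_3e01db_pr.WC
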