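import Pool.Agent.Work.MP_3e01db_pr.WC.Lang

/-!
# Word calculus: the language of strong pages and strong clusters

Unit: `M` fine steps.  A page starts at height `M` above its grid level `0`, reaches `S` before `0`
and comes back to `0` before `2 * S`.  The label with inner radius `16 * m` (and outer radius
`R * 16 * m`, `R = 2 * R'`) is strong for the words of `PG M m R' S`.
-/

namespace Pool.Agent.Work.MP_3e01db_pr.WC

open scoped ENNReal

/-! ### Composition of exits -/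

theorem Dn_append {a b a1 b1 : ℤ} {u v : List Bool} (hu : u ∈ Dn a1 b1)
    (hv : v ∈ Dn (a + b1) (b - b1)) (ha : a1 ≤ a) (hb : b1 ≤ b) : u ++ v ∈ Dn a b := by
  refine ⟨by rw [ht_append, hv.1, hu.1]; ring, fun t ht' hne => ?_⟩
  rcases prefix_append_iff'.1 ht' with ⟨h1, h2⟩ | ⟨s, hs, rfl⟩
  · have := hu.2 t h1 h2
    constructor <;> linarith [this.1, this.2]
  · have := hv.2 s hs (fun h => hne (by rw [h]))
    rw [ht_append, hu.1]
    constructor <;> linarith [this.1, this.2]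

theorem Up_mono {a b b' : ℤ} (h : b ≤ b') : Up a b ⊆ Up a b' :=
  fun _ hw => ⟨hw.1, fun u hu hne => ⟨lt_of_le_of_lt (neg_le_neg h) (hw.2 u hu hne).1,
    (hw.2 u hu hne).2⟩⟩

theorem Dn_mono {a a' b : ℤ} (h : a ≤ a') : Dn a b ⊆ Dn a' b :=
  fun _ hw => ⟨hw.1, fun u hu hne => ⟨(hw.2 u hu hne).1, lt_of_lt_of_le (hw.2 u hu hne).2 h⟩⟩

theorem pw_Up_subset (c k : ℕ) : pw (Up c c) k ⊆ Up ((k * c : ℕ) : ℤ) c := by
  induction k with
  | zero =>
    rintro w hw
    have : w = [] := hw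
    subst this
    rw [Nat.zero_mul, Nat.cast_zero, Up_zero]
    rfl
  | succ k ih =>
    rintro _ ⟨u, hu, v, hv, rfl⟩
    refine Up_append hu (Up_mono ?_ (b := (c : ℤ)) ?_) ?_ le_rfl
    · linarith [Int.natCast_nonneg c]
    · have := ih hv
      convert this using 1
      push_cast; ring_nf
    · push_cast
      nlinarith [Int.natCast_nonneg c, Int.natCast_nonneg k]

theorem Dn_zero (a : ℤ) : Dn a 0 = {[]} := by
  ext w
  constructor
  · intro hw
    by_contra hne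
    have := (hw.2 [] List.nil_prefix (fun h => hne (by rw [← h]; rfl))).1
    simp at this
  · rintro rfl
    refine ⟨by simp, fun u hu hne => ?_⟩
    exact absurd (List.prefix_nil.1 hu) hne

theorem pw_Dn_subset (c k : ℕ) : pw (Dn c c) k ⊆ Dn c ((k * c : ℕ) : ℤ) := by
  induction k with
  | zero =>
    rintro w hw
    have : w = [] := hw
    subst this
    rw [Nat.zero_mul, Nat.cast_zero, Dn_zero]
    rfl
  | succ k ih =>
    rintro _ ⟨u, hu, v, hv, rfl⟩
    refine Dn_append hu (Dn_mono ?_ (a := (c : ℤ)) ?_) le_rfl ?_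
    · linarith [Int.natCast_nonneg c]
    · have := ih hv
      convert this using 1
      push_cast; ring_nf
    · push_cast
      nlinarith [Int.natCast_nonneg c, Int.natCast_nonneg k]

/-! ### Pages -/

/-- pages -/
def Page (M S : ℕ) : Set (List Bool) := cat (Up (S - M) M) (Dn S S)

/-- up part of the pages whose label at `(16 m, 32 R' m)` is strong -/
def PGup (M m R' S : ℕ) : Set (List Bool) :=
  cat (Up (16 * m - M) M) (cat (pw (Up (4 * m : ℕ) (4 * m : ℕ)) (4 * (4 * R' - 1)))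
    (Up (S - 64 * R' * m) (16 * R' * m)))

/-- down part of the pages whose label at `(16 m, 32 R' m)` is strong -/
def PGdn (m R' S : ℕ) : Set (List Bool) :=
  cat (Dn S (S - 48 * R' * m)) (cat (pw (Dn (4 * m : ℕ) (4 * m : ℕ)) (12 * R' - 2))
    (Dn (2 * S - 8 * m) (8 * m)))

/-- pages whose label at `(16 m, 32 R' m)` is strong -/
def PG (M m R' S : ℕ) : Set (List Bool) := cat (PGup M m R' S) (PGdn m R' S)

theorem PF_Page (M S : ℕ) : PF (Page M S) := (PF_Up _ _).cat (PF_Dn _ _)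

theorem PF_PGup (M m R' S : ℕ) : PF (PGup M m R' S) :=
  (PF_Up _ _).cat ((PF_pw (PF_Up _ _) _).cat (PF_Up _ _))

theorem PF_PGdn (m R' S : ℕ) : PF (PGdn m R' S) :=
  (PF_Dn _ _).cat ((PF_pw (PF_Dn _ _) _).cat (PF_Dn _ _))

theorem PF_PG (M m R' S : ℕ) : PF (PG M m R' S) := (PF_PGup _ _ _ _).cat (PF_PGdn _ _ _)

theorem ofReal_half : ENNReal.ofReal (1 / 2) = 2⁻¹ := by
  rw [one_div, ENNReal.ofReal_inv_of_pos (by norm_num)]
  simp

theorem wt_Up_half (a : ℕ) (ha : 0 < a) : wt (Up a a) = 2⁻¹ := by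
  rw [wt_Up' a a (by omega), ← ofReal_half]
  congr 1
  have : (a : ℝ) ≠ 0 := by exact_mod_cast ha.ne'
  field_simp
  norm_num

theorem wt_Dn_half (a : ℕ) (ha : 0 < a) : wt (Dn a a) = 2⁻¹ := by
  rw [wt_Dn_eq, wt_Up_half a ha]

theorem wt_Page (M S : ℕ) (hS : 0 < S) (hM : M ≤ S) :
    wt (Page M S) = ENNReal.ofReal (M / S) * 2⁻¹ := by
  unfold Page
  rw [wt_cat _ _ (PF_Up _ _), wt_Dn_half S hS, wt_Up S M hS hM]

theorem PGup_subset (M m R' S : ℕ) (hm : M ≤ m) (hR : 1 ≤ R')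
    (hS : 64 * R' * m ≤ S) : PGup M m R' S ⊆ Up (S - M) M := by
  rintro _ ⟨u, hu, _, ⟨v, hv, x, hx, rfl⟩, rfl⟩
  have hmM : (M : ℤ) ≤ m := by exact_mod_cast hm
  have hmz : (0 : ℤ) ≤ m := Int.natCast_nonneg m
  have hRz : (1 : ℤ) ≤ R' := by exact_mod_cast hR
  have hSz : 64 * (R' : ℤ) * m ≤ S := by exact_mod_cast hS
  have hRm : (m : ℤ) ≤ R' * m := by nlinarith
  have hv' := pw_Up_subset (4 * m) (4 * (4 * R' - 1)) hv
  have hK : ((4 * (4 * R' - 1) * (4 * m) : ℕ) : ℤ) = 64 * R' * m - 16 * m := by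
    have : 4 * (4 * R' - 1) * (4 * m) + 16 * m = 64 * R' * m := by
      obtain ⟨k, rfl⟩ : ∃ k, R' = k + 1 := ⟨R' - 1, by omega⟩
      have : 4 * (k + 1) - 1 = 4 * k + 3 := by omega
      rw [this]; ring
    have h2 : ((4 * (4 * R' - 1) * (4 * m) : ℕ) : ℤ) + 16 * m = 64 * R' * m := by
      exact_mod_cast this
    linarith
  rw [hK] at hv'
  refine Up_append hu (Up_append hv' (Up_mono ?_ (b := 16 * (R' : ℤ) * m) ?_) ?_ ?_) ?_ le_rfl
  · linarith
  · convert hx using 1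
    ring_nf
  · linarith
  · push_cast
    linarith
  · linarith

theorem PGdn_subset (m R' S : ℕ) (hR : 1 ≤ R') (hS : 64 * R' * m ≤ S) :
    PGdn m R' S ⊆ Dn S S := by
  rintro _ ⟨u, hu, _, ⟨v, hv, x, hx, rfl⟩, rfl⟩
  have hmz : (0 : ℤ) ≤ m := Int.natCast_nonneg m
  have hRz : (1 : ℤ) ≤ R' := by exact_mod_cast hR
  have hSz : 64 * (R' : ℤ) * m ≤ S := by exact_mod_cast hS
  have hRm : (m : ℤ) ≤ R' * m := by nlinarith
  have hv' := pw_Dn_subset (4 * m) (12 * R' - 2) hv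
  have hK : (((12 * R' - 2) * (4 * m) : ℕ) : ℤ) = 48 * R' * m - 8 * m := by
    have : (12 * R' - 2) * (4 * m) + 8 * m = 48 * R' * m := by
      obtain ⟨k, rfl⟩ : ∃ k, R' = k + 1 := ⟨R' - 1, by omega⟩
      have : 12 * (k + 1) - 2 = 12 * k + 10 := by omega
      rw [this]; ring
    have h2 : (((12 * R' - 2) * (4 * m) : ℕ) : ℤ) + 8 * m = 48 * R' * m := by
      exact_mod_cast this
    linarith
  rw [hK] at hv'
  refine Dn_append hu (Dn_append hv' (Dn_mono ?_ (a := 2 * (S : ℤ) - 8 * m) ?_) ?_ ?_) le_rfl ?_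
  · linarith
  · convert hx using 1
    ring_nf
  · push_cast
    linarith
  · linarith
  · linarith

theorem PG_subset (M m R' S : ℕ) (hm : M ≤ m) (hR : 1 ≤ R')
    (hS : 64 * R' * m ≤ S) : PG M m R' S ⊆ Page M S :=
  cat_mono (PGup_subset M m R' S hm hR hS) (PGdn_subset m R' S hR hS)

theorem wt_PGup_ge (M m R' S : ℕ) (hM : 0 < M) (hm : M ≤ m) (hR : 1 ≤ R')
    (hS : 64 * R' * m ≤ S) :
    ENNReal.ofReal (M / S) * 2⁻¹ ^ (16 * R') ≤ wt (PGup M m R' S) := by
  have hmpos : 0 < m := lt_of_lt_of_le hM hm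
  have hRm : m ≤ R' * m := Nat.le_mul_of_pos_left m hR
  have hS' : 64 * (R' * m) ≤ S := by rw [← mul_assoc]; exact hS
  unfold PGup
  rw [wt_cat _ _ (PF_Up _ _), wt_cat _ _ (PF_pw (PF_Up _ _) _), wt_pw (PF_Up _ _),
    wt_Up_half (4 * m) (by omega)]
  have h1 : wt (Up (16 * (m : ℤ) - M) M) = ENNReal.ofReal (M / (16 * m)) := by
    have := wt_Up (16 * m) M (by omega) (by omega)
    push_cast at this
    rw [this]
  have h2 : ENNReal.ofReal (16 * (R' * m) / S) ≤ wt (Up ((S : ℤ) - 64 * R' * m) (16 * R' * m)) := by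
    have h3 := wt_Up (S - 48 * (R' * m)) (16 * (R' * m)) (by omega) (by omega)
    have h4 : (((S - 48 * (R' * m) : ℕ) : ℤ) - (16 * (R' * m) : ℕ)) = (S : ℤ) - 64 * R' * m := by
      rw [Nat.cast_sub (by omega)]; push_cast; ring
    rw [h4] at h3
    have h5 : ((16 * (R' * m) : ℕ) : ℤ) = 16 * R' * m := by push_cast; ring
    rw [h5] at h3
    rw [h3]
    apply ENNReal.ofReal_le_ofReal
    rw [Nat.cast_sub (by omega)]
    push_cast
    have hSr : 64 * ((R' : ℝ) * m) ≤ S := by exact_mod_cast hS'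
    have hRmr : (0 : ℝ) < (R' : ℝ) * m := by
      have : 0 < R' * m := by omega
      exact_mod_cast this
    apply div_le_div_of_nonneg_left (by positivity) (by linarith) (by linarith)
  have h3 : (2⁻¹ : ℝ≥0∞) ^ (16 * R') ≤ 2⁻¹ ^ (4 * (4 * R' - 1)) :=
    pow_le_pow_right_of_le_one' (by simp) (by omega)
  rw [h1]
  calc ENNReal.ofReal (M / S) * 2⁻¹ ^ (16 * R')
      ≤ (ENNReal.ofReal (M / (16 * m)) * ENNReal.ofReal (16 * (R' * m) / S)) * 2⁻¹ ^ (16 * R') := by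
        gcongr
        rw [← ENNReal.ofReal_mul (by positivity)]
        apply ENNReal.ofReal_le_ofReal
        have hmr : (0 : ℝ) < m := by exact_mod_cast hmpos
        have hSr : (0 : ℝ) < S := by
          have : 0 < S := by omega
          exact_mod_cast this
        have hRr : (1 : ℝ) ≤ R' := by exact_mod_cast hR
        have hMr : (0 : ℝ) < M := by exact_mod_cast hM
        have : (M : ℝ) / (16 * m) * (16 * (R' * m) / S) = R' * (M / S) := by
          field_simp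
        rw [this]
        exact le_mul_of_one_le_left (by positivity) hRr
    _ ≤ ENNReal.ofReal (M / (16 * m)) * (2⁻¹ ^ (4 * (4 * R' - 1)) *
          wt (Up ((S : ℤ) - 64 * R' * m) (16 * R' * m))) := by
        rw [mul_assoc, mul_comm (ENNReal.ofReal (16 * (R' * m) / S))]
        gcongr

theorem wt_PGdn_ge (m R' S : ℕ) (hm : 0 < m) (hR : 1 ≤ R') (hS : 64 * R' * m ≤ S) :
    (2⁻¹ : ℝ≥0∞) ^ (12 * R') ≤ wt (PGdn m R' S) := by
  have hRm : m ≤ R' * m := Nat.le_mul_of_pos_left m hR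
  have hS' : 64 * (R' * m) ≤ S := by rw [← mul_assoc]; exact hS
  unfold PGdn
  rw [wt_cat _ _ (PF_Dn _ _), wt_cat _ _ (PF_pw (PF_Dn _ _) _), wt_pw (PF_Dn _ _),
    wt_Dn_half (4 * m) (by omega)]
  have h1 : (2⁻¹ : ℝ≥0∞) ≤ wt (Dn (S : ℤ) (S - 48 * R' * m)) := by
    have h3 := wt_Dn' S (S - 48 * (R' * m)) (by omega)
    have h4 : ((S - 48 * (R' * m) : ℕ) : ℤ) = (S : ℤ) - 48 * R' * m := by
      rw [Nat.cast_sub (by omega)]; push_cast; ring
    rw [h4] at h3
    rw [h3, ← ofReal_half]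
    apply ENNReal.ofReal_le_ofReal
    rw [Nat.cast_sub (by omega)]
    push_cast
    have hSr : 64 * ((R' : ℝ) * m) ≤ S := by exact_mod_cast hS'
    have hRmr : (0 : ℝ) < (R' : ℝ) * m := by
      have : 0 < R' * m := by omega
      exact_mod_cast this
    rw [div_le_div_iff₀ (by norm_num) (by linarith)]
    linarith
  have h2 : (2⁻¹ : ℝ≥0∞) ≤ wt (Dn (2 * (S : ℤ) - 8 * m) (8 * m)) := by
    have h3 := wt_Dn' (2 * S - 8 * m) (8 * m) (by omega)
    have h4 : ((2 * S - 8 * m : ℕ) : ℤ) = 2 * (S : ℤ) - 8 * m := by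
      rw [Nat.cast_sub (by omega)]; push_cast; ring
    have h5 : ((8 * m : ℕ) : ℤ) = 8 * (m : ℤ) := by push_cast; ring
    rw [h4, h5] at h3
    rw [h3, ← ofReal_half]
    apply ENNReal.ofReal_le_ofReal
    rw [Nat.cast_sub (by omega)]
    push_cast
    have hSr : 64 * ((R' : ℝ) * m) ≤ S := by exact_mod_cast hS'
    have hRmr : (0 : ℝ) < (R' : ℝ) * m := by
      have : 0 < R' * m := by omega
      exact_mod_cast this
    have hmr : (m : ℝ) ≤ (R' : ℝ) * m := by exact_mod_cast hRm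
    rw [div_le_div_iff₀ (by norm_num) (by linarith)]
    linarith
  calc (2⁻¹ : ℝ≥0∞) ^ (12 * R') = 2⁻¹ * (2⁻¹ ^ (12 * R' - 2) * 2⁻¹) := by
        rw [← pow_succ, ← pow_succ']
        congr 1
        omega
    _ ≤ _ := by gcongr

theorem wt_PG_ge (M m R' S : ℕ) (hM : 0 < M) (hm : M ≤ m) (hR : 1 ≤ R')
    (hS : 64 * R' * m ≤ S) :
    ENNReal.ofReal (M / S) * 2⁻¹ ^ (28 * R') ≤ wt (PG M m R' S) := by
  unfold PG
  rw [wt_cat _ _ (PF_PGup _ _ _ _)]
  have h1 := wt_PGup_ge M m R' S hM hm hR hS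
  have h2 := wt_PGdn_ge m R' S (lt_of_lt_of_le hM hm) hR hS
  calc ENNReal.ofReal (M / S) * 2⁻¹ ^ (28 * R')
      = (ENNReal.ofReal (M / S) * 2⁻¹ ^ (16 * R')) * 2⁻¹ ^ (12 * R') := by
        rw [mul_assoc, ← pow_add]
        congr 2
        omega
    _ ≤ _ := by gcongr

end Pool.Agent.Work.MP_3e01db_pr.WC
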