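import Pool.Agent.Work.MP_3e01db_pr.WC.TSide

/-!
# Word calculus: strong clusters and windows
-/

namespace Pool.Agent.Work.MP_3e01db_pr.WC

open scoped ENNReal

/-- the label `j` of the page is strong; `N = (2 R') ^ J` pages, `S = 16 N M`, radii
`16 (2R')^(J-j) M` and `2 R'` times this -/
def PGj (R' J M j : ℕ) : Set (List Bool) :=
  PG M ((2 * R') ^ (J - j) * M) R' (16 * (2 * R') ^ J * M)

open Classical in
/-- the strong labels of a page word -/
noncomputable def labels (R' J M : ℕ) (w : List Bool) : Finset ℕ :=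
  (Finset.Icc 2 J).filter (fun j => w ∈ PGj R' J M j)

/-- pages with at least `θ` strong labels -/
def Pstar (R' J M θ : ℕ) : Set (List Bool) :=
  {w | w ∈ Page M (16 * (2 * R') ^ J * M) ∧ θ ≤ (labels R' J M w).card}

theorem PF_Pstar (R' J M θ : ℕ) : PF (Pstar R' J M θ) := (PF_Page _ _).mono (fun _ h => h.1)

theorem PGj_cond (R' J M j : ℕ) (hR : 1 ≤ R') (hj : 2 ≤ j) (hJ : j ≤ J) :
    64 * R' * ((2 * R') ^ (J - j) * M) ≤ 16 * (2 * R') ^ J * M := by
  have h1 : (2 * R') ^ J = (2 * R') ^ (J - j) * (2 * R') ^ j := by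
    rw [← pow_add]; congr 1; omega
  have h2 : 2 * (2 * R') ≤ (2 * R') ^ j := by
    obtain ⟨i, rfl⟩ : ∃ i, j = i + 2 := ⟨j - 2, by omega⟩
    calc 2 * (2 * R') ≤ (2 * R') * (2 * R') := by gcongr; omega
      _ = 1 * ((2 * R') ^ 2) := by ring
      _ ≤ (2 * R') ^ i * (2 * R') ^ 2 := by
        gcongr
        exact Nat.one_le_pow _ _ (by omega)
      _ = (2 * R') ^ (i + 2) := by ring
  rw [h1]
  calc 64 * R' * ((2 * R') ^ (J - j) * M) = 16 * ((2 * R') ^ (J - j) * (2 * (2 * R'))) * M := by ring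
    _ ≤ 16 * ((2 * R') ^ (J - j) * (2 * R') ^ j) * M := by gcongr

theorem PGj_subset (R' J M j : ℕ) (hR : 1 ≤ R') (hj : 2 ≤ j) (hJ : j ≤ J) :
    PGj R' J M j ⊆ Page M (16 * (2 * R') ^ J * M) :=
  PG_subset _ _ _ _ (Nat.le_mul_of_pos_left M (Nat.pow_pos (by omega))) hR
    (PGj_cond R' J M j hR hj hJ)

theorem wt_Pstar_ge (R' J M θ : ℕ) (hM : 0 < M) (hR : 1 ≤ R') (hJ : 2 ≤ J)
    (hθ : θ * 2 ^ (28 * R') ≤ J - 1) :
    ENNReal.ofReal (1 / (16 * (2 * R') ^ J)) * 2⁻¹ ^ (28 * R' + 1) ≤ wt (Pstar R' J M θ) := by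
  have hN : 0 < (2 * R') ^ J := Nat.pow_pos (by omega)
  have hNM : 0 < (2 * R') ^ J * M := Nat.mul_pos hN hM
  have hS : 0 < 16 * (2 * R') ^ J * M := by rw [mul_assoc]; omega
  set x : ℝ≥0∞ := ENNReal.ofReal ((M : ℝ) / ((16 * (2 * R') ^ J * M : ℕ) : ℝ)) with hx
  have hxe : x = ENNReal.ofReal (1 / (16 * (2 * R') ^ J)) := by
    rw [hx]
    congr 1
    push_cast
    have : (M : ℝ) ≠ 0 := by exact_mod_cast hM.ne'
    have h2 : ((2 : ℝ) * R') ^ J ≠ 0 := by
      have : ((2 * R' : ℕ) : ℝ) ^ J ≠ 0 := by exact_mod_cast hN.ne'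
      push_cast at this
      exact this
    field_simp
  rw [← hxe]
  have hxfin : x ≠ ⊤ := by rw [hx]; exact ENNReal.ofReal_ne_top
  have h1 := averaging (Page M (16 * (2 * R') ^ J * M)) (PGj R' J M) (Finset.Icc 2 J)
    (fun j hj => PGj_subset R' J M j hR (Finset.mem_Icc.1 hj).1 (Finset.mem_Icc.1 hj).2) θ
  have h2 : ∀ j ∈ Finset.Icc 2 J, x * 2⁻¹ ^ (28 * R') ≤ wt (PGj R' J M j) := by
    intro j hj
    have hj' := Finset.mem_Icc.1 hj
    exact wt_PG_ge M _ R' _ hM (Nat.le_mul_of_pos_left M (Nat.pow_pos (by omega))) hR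
      (PGj_cond R' J M j hR hj'.1 hj'.2)
  have hcard : (Finset.Icc 2 J).card = J - 1 := by rw [Nat.card_Icc]; omega
  have h3 : ((J - 1 : ℕ) : ℝ≥0∞) * (x * 2⁻¹ ^ (28 * R')) ≤
      ∑ j ∈ Finset.Icc 2 J, wt (PGj R' J M j) := by
    have := Finset.card_nsmul_le_sum _ _ _ h2
    rwa [hcard, nsmul_eq_mul] at this
  have h4 : wt (Page M (16 * (2 * R') ^ J * M)) = x * 2⁻¹ := by
    rw [wt_Page _ _ hS (by
      calc M ≤ ((2 * R') ^ J) * M := Nat.le_mul_of_pos_left M hN
        _ ≤ 16 * ((2 * R') ^ J * M) := by omega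
        _ = 16 * (2 * R') ^ J * M := by ring)]
  have h5 : (θ : ℝ≥0∞) ≤ ((J - 1 : ℕ) : ℝ≥0∞) * 2⁻¹ ^ (28 * R') := by
    have h6 : (θ : ℝ≥0∞) * 2 ^ (28 * R') ≤ ((J - 1 : ℕ) : ℝ≥0∞) := by exact_mod_cast hθ
    calc (θ : ℝ≥0∞) = θ * (2 ^ (28 * R') * 2⁻¹ ^ (28 * R')) := by
          rw [← mul_pow, ENNReal.mul_inv_cancel (by simp) (by simp), one_pow, mul_one]
      _ = (θ * 2 ^ (28 * R')) * 2⁻¹ ^ (28 * R') := by rw [mul_assoc]
      _ ≤ _ := by gcongr
  have hP : {w | w ∈ Page M (16 * (2 * R') ^ J * M) ∧ θ ≤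
      (@Finset.filter ℕ (fun j => w ∈ PGj R' J M j) (fun _ => Classical.propDecidable _)
        (Finset.Icc 2 J)).card} = Pstar R' J M θ := by
    ext w
    rfl
  rw [hP, h4, hcard] at h1
  set c : ℝ≥0∞ := 2⁻¹ ^ (28 * R') with hc
  set j1 : ℝ≥0∞ := ((J - 1 : ℕ) : ℝ≥0∞) with hj1
  have hj0 : j1 ≠ 0 := by
    rw [hj1]
    have : J - 1 ≠ 0 := by omega
    exact_mod_cast this
  have hjt : j1 ≠ ⊤ := ENNReal.natCast_ne_top _
  have hcfin : c ≠ ⊤ := by rw [hc]; simp
  have h6 : j1 * (x * (c * 2⁻¹)) + j1 * (x * (c * 2⁻¹)) ≤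
      j1 * wt (Pstar R' J M θ) + j1 * (x * (c * 2⁻¹)) := by
    calc j1 * (x * (c * 2⁻¹)) + j1 * (x * (c * 2⁻¹)) = j1 * (x * c) := by
          rw [← mul_add, ← mul_add, ← mul_add, ENNReal.inv_two_add_inv_two, mul_one]
      _ ≤ _ := h3
      _ ≤ _ := h1
      _ ≤ j1 * wt (Pstar R' J M θ) + (j1 * c) * (x * 2⁻¹) := by gcongr
      _ = _ := by
        congr 1
        ring
  have h7 : j1 * (x * (c * 2⁻¹)) ≤ j1 * wt (Pstar R' J M θ) :=
    (ENNReal.add_le_add_iff_right (by
      refine ENNReal.mul_ne_top hjt (ENNReal.mul_ne_top hxfin (ENNReal.mul_ne_top hcfin (by simp)))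
      )).1 h6
  have h8 := (ENNReal.mul_le_mul_iff_right hj0 hjt).1 h7
  rw [pow_succ]
  exact h8

/-- one page of a cluster: a down step, an up step, a page with many strong labels -/
def Blk (R' J M θ : ℕ) : Set (List Bool) :=
  cat (Dn (M : ℕ) (M : ℕ)) (cat (Up (M : ℕ) (M : ℕ)) (Pstar R' J M θ))

/-- strong clusters: `N = (2 R') ^ J` pages -/
def Clu (R' J M θ : ℕ) : Set (List Bool) := pw (Blk R' J M θ) ((2 * R') ^ J)

theorem PF_Blk (R' J M θ : ℕ) : PF (Blk R' J M θ) :=
  (PF_Dn _ _).cat ((PF_Up _ _).cat (PF_Pstar _ _ _ _))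

theorem PF_Clu (R' J M θ : ℕ) : PF (Clu R' J M θ) := PF_pw (PF_Blk _ _ _ _) _

theorem wt_Clu_ge (R' J M θ : ℕ) (hM : 0 < M) (hR : 1 ≤ R') (hJ : 2 ≤ J)
    (hθ : θ * 2 ^ (28 * R') ≤ J - 1) :
    (ENNReal.ofReal (1 / (16 * (2 * R') ^ J)) * 2⁻¹ ^ (28 * R' + 3)) ^ ((2 * R') ^ J) ≤
      wt (Clu R' J M θ) := by
  unfold Clu
  rw [wt_pw (PF_Blk _ _ _ _)]
  refine pow_le_pow_left' ?_ _
  unfold Blk
  rw [wt_cat _ _ (PF_Dn _ _), wt_cat _ _ (PF_Up _ _), wt_Dn_half M hM, wt_Up_half M hM]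
  have := wt_Pstar_ge R' J M θ hM hR hJ hθ
  calc ENNReal.ofReal (1 / (16 * (2 * R') ^ J)) * 2⁻¹ ^ (28 * R' + 3)
      = 2⁻¹ * (2⁻¹ * (ENNReal.ofReal (1 / (16 * (2 * R') ^ J)) * 2⁻¹ ^ (28 * R' + 1))) := by
        ring
    _ ≤ _ := by gcongr

/-! ### Confinement of clusters -/

theorem Page_ht {M S : ℕ} {w : List Bool} (h : w ∈ Page M S) : ht w = -(M : ℤ) := by
  obtain ⟨u, hu, v, hv, rfl⟩ := h
  rw [ht_append, hu.1, hv.1]; ring

theorem Page_above {M S : ℕ} (hM : 0 < M) (hS : M ≤ S) {w : List Bool} (h : w ∈ Page M S)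
    {u : List Bool} (hu : u <+: w) (hne : u ≠ w) : -(M : ℤ) < ht u := by
  obtain ⟨x, hx, y, hy, rfl⟩ := h
  have hMz : (0 : ℤ) < M := by exact_mod_cast hM
  have hSz : (M : ℤ) ≤ S := by exact_mod_cast hS
  rcases prefix_append_iff'.1 hu with ⟨h1, h2⟩ | ⟨s, hs, rfl⟩
  · exact (hx.2 u h1 h2).1
  · have := (hy.2 s hs (fun h => hne (by rw [h]))).1
    rw [ht_append, hx.1]
    linarith

theorem Blk_ht {R' J M θ : ℕ} {w : List Bool} (h : w ∈ Blk R' J M θ) : ht w = -(M : ℤ) := by
  obtain ⟨u, hu, _, ⟨v, hv, x, hx, rfl⟩, rfl⟩ := h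
  rw [ht_append, ht_append, hu.1, hv.1, Page_ht hx.1]; ring

theorem Blk_above {R' J M θ : ℕ} (hM : 0 < M) (hR : 1 ≤ R') {w : List Bool}
    (h : w ∈ Blk R' J M θ) {t : List Bool} (ht' : t <+: w) : -(2 * M : ℤ) < ht t := by
  obtain ⟨u, hu, _, ⟨v, hv, x, hx, rfl⟩, rfl⟩ := h
  have hMz : (0 : ℤ) < M := by exact_mod_cast hM
  have hS : M ≤ 16 * (2 * R') ^ J * M := by
    have : 0 < (2 * R') ^ J := Nat.pow_pos (by omega)
    calc M ≤ ((2 * R') ^ J) * M := Nat.le_mul_of_pos_left M this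
        _ ≤ 16 * ((2 * R') ^ J * M) := by omega
        _ = 16 * (2 * R') ^ J * M := by ring
  rcases prefix_append_iff'.1 ht' with ⟨h1, h2⟩ | ⟨s, hs, rfl⟩
  · have := (hu.2 t h1 h2).1
    linarith
  · rw [ht_append, hu.1]
    rcases prefix_append_iff'.1 hs with ⟨h1, h2⟩ | ⟨s', hs', rfl⟩
    · have := (hv.2 s h1 h2).1
      linarith
    · rw [ht_append, hv.1]
      by_cases hne : s' = x
      · rw [hne, Page_ht hx.1]
        linarith
      · have := Page_above hM hS hx.1 hs' hne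
        linarith

theorem pw_Blk_ht {R' J M θ k : ℕ} {w : List Bool} (h : w ∈ pw (Blk R' J M θ) k) :
    ht w = -(k * M : ℤ) := by
  induction k generalizing w with
  | zero =>
    have : w = [] := h
    subst this
    simp
  | succ k ih =>
    obtain ⟨u, hu, v, hv, rfl⟩ := h
    rw [ht_append, Blk_ht hu, ih hv]
    push_cast; ring

theorem pw_Blk_above {R' J M θ k : ℕ} (hM : 0 < M) (hR : 1 ≤ R') {w : List Bool}
    (h : w ∈ pw (Blk R' J M θ) k) {t : List Bool} (ht' : t <+: w) : -((k + 1) * M : ℤ) < ht t := by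
  have hMz : (0 : ℤ) < M := by exact_mod_cast hM
  induction k generalizing w t with
  | zero =>
    have : w = [] := h
    subst this
    rw [List.prefix_nil.1 ht']
    simp
    exact hM
  | succ k ih =>
    obtain ⟨u, hu, v, hv, rfl⟩ := h
    rcases prefix_append_iff'.1 ht' with ⟨h1, h2⟩ | ⟨s, hs, rfl⟩
    · have := Blk_above hM hR hu h1
      push_cast
      nlinarith [Int.natCast_nonneg k]
    · have := ih hv hs
      rw [ht_append, Blk_ht hu]
      push_cast
      linarith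

/-! ### Windows -/

/-- first passage words to `-(a K)` such that for no `k < K` the word continues, after its first
passage to `-(a k)`, with a word of `W k` -/
def Bad (a : ℕ → ℤ) (W : ℕ → Set (List Bool)) (K : ℕ) : Set (List Bool) :=
  {w | w ∈ FP (a K) ∧ ∀ k < K, ∀ u v t, w = u ++ (v ++ t) → u ∈ FP (a k) → v ∉ W k}

theorem PF_Bad (a : ℕ → ℤ) (W : ℕ → Set (List Bool)) (K : ℕ) : PF (Bad a W K) :=
  (PF_FP _).mono (fun _ h => h.1)

/-- every word reaching `-b` has a first passage prefix -/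
theorem exists_FP_prefix (b : ℤ) (hb : 0 ≤ b) (w : List Bool) (h : ht w ≤ -b) :
    ∃ u v, w = u ++ v ∧ u ∈ FP b := by
  induction w using List.reverseRecOn with
  | nil =>
    have hb0 : b = 0 := by
      have : ht [] = 0 := rfl
      omega
    refine ⟨[], [], rfl, by rw [hb0]; simp [ht_nil], fun u hu hne => ?_⟩
    exact absurd (List.prefix_nil.1 hu) hne
  | append_singleton w c ih =>
    by_cases h1 : ∃ u, u <+: w ∧ ht u ≤ -b
    · obtain ⟨u0, hu0, hu1⟩ := h1
      by_cases h2 : ht w ≤ -b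
      · obtain ⟨u, v, rfl, hu⟩ := ih h2
        exact ⟨u, v ++ [c], by simp, hu⟩
      · -- use the first passage prefix of `w` obtained from a prefix
        obtain ⟨v0, rfl⟩ := hu0
        -- strong induction on prefixes is needed; use the shortest prefix
        have hex : ∃ n, ht ((u0 ++ v0).take n) ≤ -b :=
          ⟨u0.length, by rw [List.take_left]; exact hu1⟩
        classical
        let n := Nat.find hex
        have hn : ht ((u0 ++ v0).take n) ≤ -b := Nat.find_spec hex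
        have hmin : ∀ k < n, ¬ ht ((u0 ++ v0).take k) ≤ -b := fun k hk => Nat.find_min hex hk
        have hnle : n ≤ (u0 ++ v0).length := by
          refine (Nat.find_min' hex (m := u0.length) (by rw [List.take_left]; exact hu1)).trans ?_
          simp
        refine ⟨(u0 ++ v0).take n, (u0 ++ v0).drop n ++ [c], by simp [← List.append_assoc], ?_, ?_⟩
        · -- equality at the first passage
          rcases Nat.eq_zero_or_pos n with h0 | h0
          · rw [h0] at hn ⊢
            simp at hn ⊢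
            omega
          · have h3 := hmin (n - 1) (by omega)
            have h4 : ht ((u0 ++ v0).take n) ≥ ht ((u0 ++ v0).take (n - 1)) - 1 := by
              have h5 : (u0 ++ v0).take n = (u0 ++ v0).take (n - 1) ++
                  [(u0 ++ v0)[n - 1]'(by omega)] := by
                rw [← List.take_succ_eq_append_getElem (by omega)]
                congr 1
                omega
              rw [h5, ht_append]
              cases (u0 ++ v0)[n - 1]'(by omega)
              · simp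
              · simp
                omega
            omega
        · intro u hu hne
          obtain ⟨x, hx⟩ := hu
          have hlen : u.length < n := by
            have h6 : u.length + x.length = n := by
              have := congrArg List.length hx
              rw [List.length_append, List.length_take] at this
              omega
            rcases Nat.eq_zero_or_pos x.length with h7 | h7
            · exfalso
              apply hne
              rw [List.length_eq_zero_iff] at h7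
              rw [← hx, h7]; simp
            · omega
          have h8 : u = (u0 ++ v0).take u.length := by
            have h9 : u = ((u0 ++ v0).take n).take u.length := by
              rw [← hx]; simp
            rw [List.take_take, min_eq_left hlen.le] at h9
            exact h9
          have := hmin u.length hlen
          rw [← h8] at this
          omega
    · push Not at h1
      -- the last letter makes the first passage
      refine ⟨w ++ [c], [], by simp, ?_, fun u hu hne => ?_⟩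
      · have h2 := h1 w (List.prefix_refl w)
        rw [ht_append] at h ⊢
        cases c <;> simp at h ⊢ <;> omega
      · rcases prefix_append_iff'.1 hu with ⟨h3, h4⟩ | ⟨s, hs, rfl⟩
        · exact h1 u h3
        · have h5 : s = [] := by
            rcases List.prefix_cons_iff.1 hs with rfl | ⟨t, rfl, ht'⟩
            · rfl
            · exfalso
              rw [List.prefix_nil.1 ht'] at hne
              exact hne rfl
          rw [h5]
          simpa using h1 w (List.prefix_refl w)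

theorem wt_Bad_le (a : ℕ → ℤ) (W : ℕ → Set (List Bool)) (p : ℝ≥0∞)
    (ha0 : 0 ≤ a 0) (ha : ∀ k, a k ≤ a (k + 1)) (hW : ∀ k, PF (W k))
    (hWb : ∀ k, ∀ w ∈ W k, ∀ u, u <+: w → -(a (k + 1) - a k) < ht u)
    (hp : ∀ k, p ≤ wt (W k)) (K : ℕ) : wt (Bad a W K) ≤ (1 - p) ^ K := by
  have hnn : ∀ k, 0 ≤ a k := by
    intro k
    induction k with
    | zero => exact ha0
    | succ k ih => exact ih.trans (ha k)
  induction K with
  | zero => rw [pow_zero]; exact kraft (PF_Bad _ _ _)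
  | succ K ih =>
    set V : Set (List Bool) := {w | w ∈ FP (a (K + 1) - a K) ∧ ∀ v t, w = v ++ t → v ∉ W K} with hV
    have h1 : Bad a W (K + 1) ⊆ cat (Bad a W K) V := by
      rintro w ⟨hw, hw2⟩
      obtain ⟨u, v, rfl, hu⟩ := exists_FP_prefix (a K) (hnn K) w (by
        rw [hw.1]; linarith [ha K])
      refine ⟨u, ⟨hu, ?_⟩, v, ⟨⟨?_, ?_⟩, ?_⟩, rfl⟩
      · intro k hk x y z hxyz hx
        exact hw2 k (by omega) x y (z ++ v) (by rw [hxyz]; simp) hx
      · have := hw.1
        rw [ht_append, hu.1] at this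
        linarith
      · intro t ht' hne
        have := hw.2 (u ++ t) ((List.prefix_append_right_inj u).2 ht')
          (fun h => hne (List.append_cancel_left h))
        rw [ht_append, hu.1] at this
        linarith
      · intro x y hxy
        exact hw2 K (by omega) u x y (by rw [hxy]) hu
    have h2 : wt V ≤ 1 - p := by
      have h3 : wt V + wt (W K) ≤ 1 := by
        apply wt_add_wt_le_one ((PF_FP _).mono (fun _ h => h.1)) (hW K)
        · rintro w hw v hv hwv
          have := hWb K v hv w hwv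
          rw [hw.1.1] at this
          exact lt_irrefl _ this
        · rintro w hw v hv ⟨t, rfl⟩
          exact hw.2 v t rfl hv
      have h4 : wt V + p ≤ 1 := le_trans (by gcongr; exact hp K) h3
      exact ENNReal.le_sub_of_add_le_right (ne_top_of_le_ne_top ENNReal.one_ne_top
        (le_trans le_add_self h4)) h4
    calc wt (Bad a W (K + 1)) ≤ wt (cat (Bad a W K) V) := wt_mono h1
      _ ≤ wt (Bad a W K) * wt V := wt_cat_le _ _
      _ ≤ (1 - p) ^ K * (1 - p) := by gcongr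
      _ = (1 - p) ^ (K + 1) := by rw [pow_succ]

/-- the windows of the cluster argument: window `k` has unit `2 ^ k`, starts at depth
`16 N 2 ^ k`, `N = (2 R') ^ J` -/
theorem wt_Bad_Clu_le (R' J θ K : ℕ) (hR : 1 ≤ R') (hJ : 2 ≤ J)
    (hθ : θ * 2 ^ (28 * R') ≤ J - 1) :
    wt (Bad (fun k => ((16 * (2 * R') ^ J * 2 ^ k : ℕ) : ℤ)) (fun k => Clu R' J (2 ^ k) θ) K) ≤
      (1 - (ENNReal.ofReal (1 / (16 * (2 * R') ^ J)) * 2⁻¹ ^ (28 * R' + 3)) ^ ((2 * R') ^ J)) ^ K := by
  apply wt_Bad_le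
  · positivity
  · intro k
    have : 16 * (2 * R') ^ J * 2 ^ k ≤ 16 * (2 * R') ^ J * 2 ^ (k + 1) := by
      gcongr
      · norm_num
      · omega
    exact_mod_cast this
  · intro k
    exact PF_Clu _ _ _ _
  · intro k w hw u hu
    have h1 := pw_Blk_above (Nat.pow_pos (by norm_num)) hR hw hu
    have hN : 0 < (2 * R') ^ J := Nat.pow_pos (by omega)
    have h2 : ((2 * R') ^ J + 1) * 2 ^ k ≤ 16 * (2 * R') ^ J * 2 ^ (k + 1) - 16 * (2 * R') ^ J * 2 ^ k := by
      rw [pow_succ]
      have : 0 < 2 ^ k := Nat.pow_pos (by norm_num)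
      have h3 : 16 * (2 * R') ^ J * (2 ^ k * 2) - 16 * (2 * R') ^ J * 2 ^ k =
          16 * (2 * R') ^ J * 2 ^ k := by
        have : 16 * (2 * R') ^ J * (2 ^ k * 2) = 2 * (16 * (2 * R') ^ J * 2 ^ k) := by ring
        omega
      rw [h3]
      gcongr
      omega
    have h4 : 16 * (2 * R') ^ J * 2 ^ k ≤ 16 * (2 * R') ^ J * 2 ^ (k + 1) := by
      gcongr
      · norm_num
      · omega
    have h5 : ((((2 * R') ^ J + 1) * 2 ^ k : ℕ) : ℤ) ≤
        ((16 * (2 * R') ^ J * 2 ^ (k + 1) : ℕ) : ℤ) - ((16 * (2 * R') ^ J * 2 ^ k : ℕ) : ℤ) := by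
      rw [← Nat.cast_sub h4]
      exact_mod_cast h2
    push_cast at h1 h5 ⊢
    linarith
  · intro k
    exact wt_Clu_ge R' J (2 ^ k) θ (Nat.pow_pos (by norm_num)) hR hJ hθ

end Pool.Agent.Work.MP_3e01db_pr.WC
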